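import Pool.Agent.Q151.FP.Data

/-!
# The good cover and its atoms; no feasible walk
-/

set_option autoImplicit false

namespace Q151.FP

/-- the `k`-th codeword -/
def cw (k : Fin 28) : Finset (Fin 9) := Finset.univ.filter fun i => (L k).testBit i = true

theorem mem_cw (k : Fin 28) (i : Fin 9) : i ∈ cw k ↔ (L k).testBit i = true := by
  simp [cw]

/-- the closed sets of the cover -/
def U (i : Fin 9) : Set (Fin 28 → ℝ) := real N (A i)

theorem U_closed (i : Fin 9) : IsClosed (U i) := isClosed_real _ _

theorem inter_eq (σ : Finset (Fin 9)) (hσ : σ.Nonempty) :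
    ∃ P ∈ fam, (⋂ i ∈ σ, U i) = real N P := by
  induction hσ using Finset.Nonempty.cons_induction with
  | singleton a => exact ⟨A a, A_mem a, by simp [U]⟩
  | cons a s has hs ih =>
    obtain ⟨P, hP, h⟩ := ih
    refine ⟨P &&& A a, fam_inter P hP a, ?_⟩
    rw [← real_inter, ← h, Set.inter_comm]
    simp [Finset.cons_eq_insert, U]

theorem contr (P : ℕ) (hP : P ∈ fam) : real N P = ∅ ∨ ContractibleSpace (real N P) := by
  unfold fam at hP
  rcases List.mem_cons.1 hP with rfl | h
  · exact Or.inl (real_zero N)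
  · obtain ⟨t, ht, rfl⟩ := List.mem_map.1 h
    exact Or.inr (chk_sound N N_refl N_symm t.2.1 t.1 t.2.2 (certs_ok t ht))

theorem A8 : ∀ k : Fin 28, (A 8).testBit k = true := by decide +kernel

theorem L8 : ∀ k : Fin 28, (L k).testBit 8 = true := by decide +kernel

/-- the atoms -/
theorem atom_eq (x : Fin 28 → ℝ) :
    (∀ i, x ∉ U i) ∨ ∃ k : Fin 28, ∀ i, x ∈ U i ↔ (L k).testBit i = true := by
  by_cases hx : ∀ i, x ∉ U i
  · exact Or.inl hx
  right
  push Not at hx
  obtain ⟨i0, h1, h2, h3, -⟩ := hx
  have hne : (Finset.univ.filter fun k => x k ≠ 0).Nonempty := by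
    by_contra hcon
    rw [Finset.not_nonempty_iff_eq_empty, Finset.filter_eq_empty_iff] at hcon
    have : ∑ k, x k = 0 := Finset.sum_eq_zero fun k hk => by simpa using hcon hk
    rw [this] at h2
    norm_num at h2
  obtain ⟨k0, hk0, hmin⟩ := Finset.exists_min_image _ L hne
  have hk0' : x k0 ≠ 0 := by simpa using hk0
  refine ⟨k0, fun i => ⟨?_, fun hi => ⟨h1, h2, h3, fun k hk => ?_⟩⟩⟩
  · rintro ⟨-, -, -, h4⟩
    by_contra hne'
    refine hk0' (h4 k0 ?_)
    rw [A_L]
    simpa using hne'
  · by_contra hxk
    have hN : (N k0).testBit k = true := by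
      by_contra hcon
      have := h3 k0 k (by simpa using hcon)
      exact (mul_ne_zero hk0' hxk) this
    have := N_L k0 k hN (hmin k (by simpa using hxk)) i hi
    rw [A_L, this] at hk
    cases hk

theorem single_atom (k : Fin 28) (i : Fin 9) :
    (Pi.single k 1 : Fin 28 → ℝ) ∈ U i ↔ (L k).testBit i = true := by
  unfold U
  rw [single_mem N N_refl, A_L]

theorem zero_atom (i : Fin 9) : (0 : Fin 28 → ℝ) ∉ U i := by
  rintro ⟨-, h2, -, -⟩
  simp at h2

theorem step_ok : ∀ t ∈ table, ∀ l : Fin 28,
    ((∀ i : Fin 9, (L t.1).testBit i = true → (L l).testBit i = true) ∨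
      ∀ i : Fin 9, (L l).testBit i = true → (L t.1).testBit i = true) →
    (∀ i : Fin 9, t.2.testBit i = true → (L l).testBit i = false) →
    (∀ i : Fin 9, (L 11).testBit i = true → (L t.1).testBit i = true → (L l).testBit i = true) →
    ∃ t' ∈ table, t'.1 = l ∧ ∀ i : Fin 9, t'.2.testBit i = true →
      (t.2.testBit i = true ∨ ((L t.1).testBit i = true ∧ (L l).testBit i = false)) := by
  decide +kernel

theorem table_ne : ∀ t ∈ table, ∃ i : Fin 9, (L 11).testBit i = true ∧ (L t.1).testBit i = false := by
  decide +kernel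

theorem src_mem : ((20 : Fin 28), (0 : ℕ)) ∈ table := by decide +kernel

/-- **No feasible walk.** -/
theorem no_walk (K : ℕ) (v : ℕ → Finset (Fin 9)) (h0 : v 0 = cw 20) (hK : v K = cw 11)
    (hmem : ∀ i ≤ K, v i = ∅ ∨ ∃ k, v i = cw k)
    (hadj : ∀ i < K, v i ⊆ v (i + 1) ∨ v (i + 1) ⊆ v i)
    (hf : ∀ i m j, i < m → m < j → j ≤ K → v i ∩ v j ⊆ v m) : False := by
  have inv : ∀ j ≤ K, ∃ t ∈ table, v j = cw t.1 ∧ ∀ i : Fin 9, t.2.testBit i = true →
      ∃ a b, a < b ∧ b ≤ j ∧ i ∈ v a ∧ i ∉ v b := by
    intro j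
    induction j with
    | zero =>
      intro _
      exact ⟨_, src_mem, h0, fun i hi => by simp at hi⟩
    | succ j ih =>
      intro hj
      obtain ⟨t, ht, hv, hd⟩ := ih (by omega)
      have htau : ∀ i : Fin 9, i ∈ cw 11 → i ∈ v j → i ∈ v (j + 1) := by
        intro i hi hij
        by_cases he : j + 1 = K
        · rw [he, hK]; exact hi
        · exact hf j (j + 1) K (by omega) (by omega) le_rfl
            (Finset.mem_inter.2 ⟨hij, by rw [hK]; exact hi⟩)
      rcases hmem (j + 1) hj with hemp | ⟨l, hl⟩
      · exfalso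
        have := htau 8 ((mem_cw 11 8).2 (L8 11)) (by rw [hv]; exact (mem_cw _ 8).2 (L8 _))
        rw [hemp] at this
        simp at this
      · obtain ⟨t', ht', hl', hd'⟩ := step_ok t ht l
          (by
            rcases hadj j (by omega) with h | h
            · left
              intro i hi
              have := h (by rw [hv]; exact (mem_cw _ i).2 hi)
              rw [hl] at this
              exact (mem_cw _ i).1 this
            · right
              intro i hi
              have := h (by rw [hl]; exact (mem_cw _ i).2 hi)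
              rw [hv] at this
              exact (mem_cw _ i).1 this)
          (by
            intro i hi
            obtain ⟨a, b, hab, hbj, hia, hib⟩ := hd i hi
            by_contra hcon
            have hil : i ∈ v (j + 1) := by rw [hl]; exact (mem_cw _ i).2 (by simpa using hcon)
            exact hib (hf a b (j + 1) hab (by omega) hj (Finset.mem_inter.2 ⟨hia, hil⟩)))
          (by
            intro i hi hit
            have := htau i ((mem_cw 11 i).2 hi) (by rw [hv]; exact (mem_cw _ i).2 hit)
            rw [hl] at this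
            exact (mem_cw _ i).1 this)
        refine ⟨t', ht', by rw [hl, hl'], fun i hi => ?_⟩
        rcases hd' i hi with h | ⟨h, h'⟩
        · obtain ⟨a, b, hab, hbj, hia, hib⟩ := hd i h
          exact ⟨a, b, hab, by omega, hia, hib⟩
        · refine ⟨j, j + 1, by omega, le_rfl, by rw [hv]; exact (mem_cw _ i).2 h, ?_⟩
          rw [hl, mem_cw, h']
          simp
  obtain ⟨t, ht, hv, -⟩ := inv K le_rfl
  obtain ⟨i, hi, hi'⟩ := table_ne t ht
  have : i ∈ v K := by rw [hK]; exact (mem_cw _ i).2 hi
  rw [hv, mem_cw, hi'] at this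
  cases this

end Q151.FP
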