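import Pool.Agent.Q151.FP.Flag

/-!
# The code: 28 codewords on 9 neurons

`L k` is the bit mask of the `k`-th codeword, `N k` the mask of the codewords comparable to it, `A i` the mask of
the codewords which contain the neuron `i`.
-/

set_option autoImplicit false

namespace Q151.FP

/-- bit masks of the codewords -/
def L (k : Fin 28) : ℕ :=
  List.getD
    [260, 264, 384, 280, 296, 336, 385, 392, 416, 263, 277, 312, 326, 340, 344, 356, 404, 452,
    464, 279, 327, 348, 358, 405, 425, 468, 472, 484]
    k.val 0

/-- masks of the comparable codewords -/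
def N (k : Fin 28) : ℕ :=
  List.getD
    [184268289, 86001818, 260506052, 69224458, 16779282, 103047200, 25165892, 83886214,
    150995204, 1573377, 8913921, 2074, 5246977, 35659809, 69222442, 138444801, 42008581,
    167903237, 100925476, 525825, 1053185, 2121771, 4231169, 8455237, 16777686, 34021413,
    67387566, 134381829]
    k.val 0

/-- masks of the codewords containing a neuron -/
def A (i : Fin 9) : ℕ :=
  List.getD
    [26740288, 5771776, 184268289, 86001818, 112028712, 155224336, 242675744, 260506052,
    268435455]
    i.val 0

/-- collapsing sequences -/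
def certs : List (ℕ × List (Fin 28 × Fin 28) × Fin 28) :=
    [(2048, [], 11), (524288, [], 19), (1048576, [], 20), (1573376, [], 9), (2097152, [], 21),
    (4194304, [], 22), (5246976, [], 12), (5771776, [(19, 9), (9, 20)], 12), (8388608, [], 23),
    (8913920, [], 10), (9963008, [(20, 9), (9, 19)], 10), (16777216, [], 24), (16779280, [], 4),
    (25165888, [], 6), (26740288, [(20, 9), (9, 19), (19, 10), (10, 23)], 6), (33554432, [],
    25), (35659776, [], 13), (42008576, [], 16), (44639232, [(19, 10), (10, 23), (21, 13), (13,
    25)], 16), (67108864, [], 26), (69222400, [], 14), (69224456, [], 3), (83886208, [], 7),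
    (86001818, [], 1), (100925440, [], 18), (103047200, [], 5), (109379584, [(23, 16), (16,
    25)], 18), (112028712, [(11, 3), (3, 14), (13, 5), (14, 5), (18, 5), (19, 10), (10, 23),
    (21, 5), (23, 16), (16, 25)], 5), (134217728, [], 27), (138444800, [], 15), (150995200, [],
    8), (155224336, [(11, 4), (4, 24), (22, 15), (15, 27)], 8), (167903232, [], 17), (175288320,
    [(20, 12), (12, 22), (21, 13), (13, 25), (22, 15), (15, 27)], 17), (176357376, [(23, 16),
    (16, 25)], 17), (184268289, [], 0), (235274240, [(26, 18), (18, 25)], 17), (242675744, [(13,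
    5), (14, 5), (18, 5), (20, 12), (12, 22), (21, 5), (22, 15), (15, 27), (26, 5), (5, 25)],
    17), (260506052, [], 2), (268435455, [(3, 1), (4, 1), (6, 2), (8, 2), (9, 0), (10, 0), (11,
    1), (12, 0), (15, 0), (19, 0), (20, 0), (22, 0), (23, 16), (16, 25), (24, 7), (7, 26), (1,
    14), (14, 5), (21, 13), (13, 25), (0, 17), (5, 18)], 2)]

/-- the masks of all intersections -/
def fam : List ℕ := 0 :: certs.map Prod.fst

/-- the reachable codewords, with neurons which cannot be used again -/
def table : List (Fin 28 × ℕ) :=
    [(10, 66), (8, 71), (19, 64), (9, 64), (16, 67), (27, 3), (15, 3), (20, 0), (0, 67), (23,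
    66), (12, 1), (22, 1)]

theorem N_refl : ∀ k, (N k).testBit k = true := by decide +kernel

theorem N_symm : ∀ k l : Fin 28, (N k).testBit l = (N l).testBit k := by decide +kernel

theorem A_mem : ∀ i : Fin 9, A i ∈ fam := by decide +kernel

theorem fam_inter : ∀ P ∈ fam, ∀ i : Fin 9, P &&& A i ∈ fam := by decide +kernel

theorem certs_ok : ∀ t ∈ certs, chk N t.1 t.2.1 t.2.2 = true := by decide +kernel

theorem A_L : ∀ (i : Fin 9) (k : Fin 28), (A i).testBit k = (L k).testBit i := by decide +kernel

theorem N_L : ∀ k l : Fin 28, (N k).testBit l = true → L k ≤ L l →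
    ∀ i : Fin 9, (L k).testBit i = true → (L l).testBit i = true := by decide +kernel

end Q151.FP
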