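import Mathlib

/-!
# Flag complexes and strong collapses

`real N P` is the geometric realization (in `ℝ^m`) of the flag complex on the vertices `k` with `P.testBit k`,
the adjacency being given by the closed neighbourhood masks `N`. Removing a dominated vertex does not change
contractibility; `chk` is a checker for sequences of such removals.
-/

set_option autoImplicit false

namespace Q151.FP

variable {m : ℕ}

/-- the realization of the flag complex -/
def real (N : Fin m → ℕ) (P : ℕ) : Set (Fin m → ℝ) :=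
  {x | (∀ k, 0 ≤ x k) ∧ ∑ k, x k = 1 ∧ (∀ k l : Fin m, (N k).testBit l = false → x k * x l = 0) ∧
    ∀ k : Fin m, P.testBit k = false → x k = 0}

theorem isClosed_real (N : Fin m → ℕ) (P : ℕ) : IsClosed (real N P) := by
  have h : real N P = (⋂ k, {x : Fin m → ℝ | 0 ≤ x k}) ∩ ({x | ∑ k, x k = 1} ∩
      ((⋂ k : Fin m, ⋂ l : Fin m, ⋂ _ : (N k).testBit l = false, {x | x k * x l = 0}) ∩
      ⋂ k : Fin m, ⋂ _ : P.testBit k = false, {x | x k = 0})) := by
    ext x
    simp only [real, Set.mem_inter_iff, Set.mem_iInter, Set.mem_ofPred_eq]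
  rw [h]
  refine IsClosed.inter ?_ (IsClosed.inter ?_ (IsClosed.inter ?_ ?_))
  · exact isClosed_iInter fun k => isClosed_le continuous_const (continuous_apply k)
  · exact isClosed_eq (by fun_prop) continuous_const
  · exact isClosed_iInter fun k => isClosed_iInter fun l => isClosed_iInter fun _ =>
      isClosed_eq (by fun_prop) continuous_const
  · exact isClosed_iInter fun k => isClosed_iInter fun _ => isClosed_eq (by fun_prop) continuous_const

theorem real_inter (N : Fin m → ℕ) (P Q : ℕ) : real N P ∩ real N Q = real N (P &&& Q) := by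
  ext x
  constructor
  · rintro ⟨⟨h1, h2, h3, h4⟩, ⟨-, -, -, h5⟩⟩
    refine ⟨h1, h2, h3, fun k hk => ?_⟩
    rw [Nat.testBit_land] at hk
    rcases (Bool.and_eq_false_iff).1 hk with h | h
    · exact h4 k h
    · exact h5 k h
  · rintro ⟨h1, h2, h3, h4⟩
    refine ⟨⟨h1, h2, h3, fun k hk => h4 k ?_⟩, ⟨h1, h2, h3, fun k hk => h4 k ?_⟩⟩
    · rw [Nat.testBit_land, hk, Bool.false_and]
    · rw [Nat.testBit_land, hk, Bool.and_false]

theorem real_zero (N : Fin m → ℕ) : real N 0 = ∅ := by
  ext x
  simp only [Set.mem_empty_iff_false, iff_false]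
  rintro ⟨-, h2, -, h4⟩
  have : ∀ k, x k = 0 := fun k => h4 k (Nat.zero_testBit _)
  simp [this] at h2

/-- a basis vector lies in the realization iff the vertex is present -/
theorem single_mem (N : Fin m → ℕ) (hr : ∀ k, (N k).testBit k = true) (P : ℕ) (c : Fin m) :
    (Pi.single c 1 : Fin m → ℝ) ∈ real N P ↔ P.testBit c = true := by
  constructor
  · rintro ⟨-, -, -, h4⟩
    by_contra h
    have := h4 c (by simpa using h)
    simp at this
  · intro h
    refine ⟨fun k => ?_, by simp, fun k l hkl => ?_, fun k hk => ?_⟩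
    · by_cases hk : k = c
      · subst hk; simp
      · simp [hk]
    · by_cases hk : k = c
      · subst hk
        by_cases hl : l = k
        · subst hl; rw [hr] at hkl; cases hkl
        · simp [hl]
      · simp [hk]
    · have : k ≠ c := by rintro rfl; rw [h] at hk; cases hk
      simp [this]

theorem cone (N : Fin m → ℕ) (hr : ∀ k, (N k).testBit k = true)
    (hs : ∀ k l : Fin m, (N k).testBit l = (N l).testBit k) (P : ℕ) (c : Fin m)
    (hc : P.testBit c = true) (h : ∀ k : Fin m, P.testBit k = true → (N c).testBit k = true) :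
    ContractibleSpace (real N P) := by
  have hmem := (single_mem N hr P c).2 hc
  refine StarConvex.contractibleSpace (x := Pi.single c 1) ?_ ⟨_, hmem⟩
  intro y hy a b ha hb hab
  obtain ⟨h1, h2, h3, h4⟩ := hy
  have key : ∀ l : Fin m, (N c).testBit l = false → y l = 0 := fun l hl => by
    apply h4
    by_contra hne
    have := h l (by simpa using hne)
    rw [this] at hl; cases hl
  refine ⟨fun k => ?_, ?_, fun k l hkl => ?_, fun k hk => ?_⟩
  · have : 0 ≤ (Pi.single c 1 : Fin m → ℝ) k := hmem.1 k
    simp only [Pi.add_apply, Pi.smul_apply, smul_eq_mul]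
    have := h1 k
    positivity
  · simp only [Pi.add_apply, Pi.smul_apply, smul_eq_mul]
    rw [Finset.sum_add_distrib, ← Finset.mul_sum, ← Finset.mul_sum, h2, hmem.2.1]
    linarith
  · simp only [Pi.add_apply, Pi.smul_apply, smul_eq_mul]
    by_cases hk : k = c
    · subst hk
      by_cases hl : l = k
      · subst hl; rw [hr] at hkl; cases hkl
      · simp [hl, key l hkl]
    · by_cases hl : l = c
      · subst hl
        rw [hs] at hkl
        simp [hk, key k hkl]
      · simp only [Pi.single_eq_of_ne hk, Pi.single_eq_of_ne hl, mul_zero, zero_add]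
        have := h3 k l hkl
        calc b * y k * (b * y l) = b * b * (y k * y l) := by ring
          _ = 0 := by rw [this, mul_zero]
  · have : k ≠ c := by rintro rfl; rw [hc] at hk; cases hk
    simp [this, h4 k hk]

/-- moving the weight of `p` to `q` -/
noncomputable def mv (p q : Fin m) (t : ℝ) (x : Fin m → ℝ) : Fin m → ℝ :=
  x + (t * x p) • ((Pi.single q 1 : Fin m → ℝ) - Pi.single p 1)

theorem mv_cont (p q : Fin m) : Continuous fun z : ℝ × (Fin m → ℝ) => mv p q z.1 z.2 := by
  unfold mv
  fun_prop

theorem mv_p {p q : Fin m} (hpq : p ≠ q) (t : ℝ) (x : Fin m → ℝ) : mv p q t x p = (1 - t) * x p := by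
  unfold mv
  simp [hpq]
  ring

theorem mv_q {p q : Fin m} (hpq : p ≠ q) (t : ℝ) (x : Fin m → ℝ) : mv p q t x q = x q + t * x p := by
  unfold mv
  simp [hpq.symm]

theorem mv_o {p q k : Fin m} (hp : k ≠ p) (hq : k ≠ q) (t : ℝ) (x : Fin m → ℝ) :
    mv p q t x k = x k := by
  unfold mv
  simp [hp, hq]

theorem mv_mem (N : Fin m → ℕ) (hr : ∀ k, (N k).testBit k = true)
    (hs : ∀ k l : Fin m, (N k).testBit l = (N l).testBit k) (P : ℕ) (p q : Fin m) (hpq : p ≠ q)
    (hp : P.testBit p = true) (hq : P.testBit q = true)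
    (h : ∀ l : Fin m, P.testBit l = true → (N p).testBit l = true → (N q).testBit l = true)
    (t : ℝ) (h0 : 0 ≤ t) (ht1 : t ≤ 1) (x : Fin m → ℝ) (hx : x ∈ real N P) :
    mv p q t x ∈ real N P := by
  obtain ⟨h1, h2, h3, h4⟩ := hx
  have hqp : (N q).testBit p = true := h p hp (hr p)
  -- the flag condition, `k` different from `p` and `q`
  have A : ∀ k l : Fin m, (N k).testBit l = false → l ≠ p → l ≠ q → mv p q t x k * x l = 0 := by
    intro k l hkl hlp hlq
    by_cases hkp : k = p
    · rw [hkp, mv_p hpq, mul_assoc, h3 p l (hkp ▸ hkl), mul_zero]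
    · by_cases hkq : k = q
      · rw [hkq, mv_q hpq, add_mul, h3 q l (hkq ▸ hkl), zero_add, mul_assoc]
        by_cases hl : P.testBit l = true
        · have : (N p).testBit l = false := by
            by_contra hne
            have := h l hl (by simpa using hne)
            rw [hkq, this] at hkl; cases hkl
          rw [h3 p l this, mul_zero]
        · rw [h4 l (by simpa using hl), mul_zero, mul_zero]
      · rw [mv_o hkp hkq, h3 k l hkl]
  refine ⟨fun k => ?_, ?_, fun k l hkl => ?_, fun k hk => ?_⟩
  · by_cases hkp : k = p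
    · rw [hkp, mv_p hpq]; exact mul_nonneg (by linarith) (h1 p)
    · by_cases hkq : k = q
      · rw [hkq, mv_q hpq]; exact add_nonneg (h1 q) (mul_nonneg h0 (h1 p))
      · rw [mv_o hkp hkq]; exact h1 k
  · unfold mv
    simp only [Pi.add_apply, Pi.smul_apply, Pi.sub_apply, smul_eq_mul]
    rw [Finset.sum_add_distrib, ← Finset.mul_sum, Finset.sum_sub_distrib, h2]
    simp
  · by_cases hl : l = p ∨ l = q
    · by_cases hk : k = p ∨ k = q
      · exfalso
        rcases hl with rfl | rfl <;> rcases hk with rfl | rfl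
        · rw [hr] at hkl; cases hkl
        · rw [hqp] at hkl; cases hkl
        · rw [hs, hqp] at hkl; cases hkl
        · rw [hr] at hkl; cases hkl
      · push Not at hk
        rw [hs] at hkl
        have := A l k hkl hk.1 hk.2
        rw [mul_comm, mv_o hk.1 hk.2 t x]
        exact this
    · push Not at hl
      rw [mv_o hl.1 hl.2 t x]
      exact A k l hkl hl.1 hl.2
  · have hkp : k ≠ p := by rintro rfl; rw [hp] at hk; cases hk
    have hkq : k ≠ q := by rintro rfl; rw [hq] at hk; cases hk
    rw [mv_o hkp hkq]; exact h4 k hk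

/-- **Strong collapse.** -/
theorem collapse (N : Fin m → ℕ) (hr : ∀ k, (N k).testBit k = true)
    (hs : ∀ k l : Fin m, (N k).testBit l = (N l).testBit k) (P P' : ℕ) (p q : Fin m) (hpq : p ≠ q)
    (hp : P.testBit p = true) (hq : P.testBit q = true)
    (h : ∀ l : Fin m, P.testBit l = true → (N p).testBit l = true → (N q).testBit l = true)
    (hP' : ∀ l : Fin m, P'.testBit l = (P.testBit l && decide (l ≠ p)))
    (hc : ContractibleSpace (real N P')) : ContractibleSpace (real N P) := by
  rw [contractible_iff_id_nullhomotopic] at hc ⊢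
  have hsub : real N P' ⊆ real N P := by
    rintro x ⟨h1, h2, h3, h4⟩
    exact ⟨h1, h2, h3, fun k hk => h4 k (by rw [hP', hk, Bool.false_and])⟩
  have hmv1 : ∀ x ∈ real N P, mv p q 1 x ∈ real N P' := by
    intro x hx
    obtain ⟨h1, h2, h3, h4⟩ := mv_mem N hr hs P p q hpq hp hq h 1 zero_le_one le_rfl x hx
    refine ⟨h1, h2, h3, fun k hk => ?_⟩
    rw [hP'] at hk
    by_cases hkp : k = p
    · rw [hkp, mv_p hpq]; ring
    · exact h4 k (by simpa [hkp] using hk)
  let r : C(real N P, real N P') :=
    ⟨fun x => ⟨mv p q 1 x.1, hmv1 x.1 x.2⟩,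
      ((mv_cont p q).comp (Continuous.prodMk continuous_const continuous_subtype_val)).subtype_mk _⟩
  let i : C(real N P', real N P) :=
    ⟨fun x => ⟨x.1, hsub x.2⟩, continuous_subtype_val.subtype_mk _⟩
  have h1 : (i.comp r).Nullhomotopic := by
    have := (hc.comp_left r).comp_right i
    rwa [ContinuousMap.id_comp] at this
  have h2 : ContinuousMap.Homotopic (ContinuousMap.id (real N P)) (i.comp r) := by
    refine ⟨⟨⟨fun tx => ⟨mv p q tx.1.1 tx.2.1,
      mv_mem N hr hs P p q hpq hp hq h tx.1.1 tx.1.2.1 tx.1.2.2 tx.2.1 tx.2.2⟩, ?_⟩, ?_, ?_⟩⟩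
    · exact ((mv_cont p q).comp (Continuous.prodMk
        (continuous_subtype_val.comp continuous_fst)
        (continuous_subtype_val.comp continuous_snd))).subtype_mk _
    · intro x
      apply Subtype.ext
      simp [mv]
    · intro x
      apply Subtype.ext
      simp [mv, r, i]
  obtain ⟨y, hy⟩ := h1
  exact ⟨y, h2.trans hy⟩

/-- a checker for sequences of strong collapses ending in a cone with apex `c` -/
def chk (N : Fin m → ℕ) : ℕ → List (Fin m × Fin m) → Fin m → Bool
  | P, [], c => P.testBit c && (P &&& N c == P)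
  | P, (p, q) :: t, c => P.testBit p && P.testBit q && decide (p ≠ q) &&
      ((N p &&& P) &&& N q == (N p &&& P)) && chk N (P ^^^ 2 ^ (p : ℕ)) t c

theorem sub_of_land {a b : ℕ} (h : a &&& b = a) (k : ℕ) (hk : a.testBit k = true) :
    b.testBit k = true := by
  rw [← h, Nat.testBit_land] at hk
  exact (Bool.and_eq_true_iff.1 hk).2

theorem chk_sound (N : Fin m → ℕ) (hr : ∀ k, (N k).testBit k = true)
    (hs : ∀ k l : Fin m, (N k).testBit l = (N l).testBit k) (s : List (Fin m × Fin m)) :
    ∀ (P : ℕ) (c : Fin m), chk N P s c = true → ContractibleSpace (real N P) := by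
  induction s with
  | nil =>
    intro P c h
    simp only [chk, Bool.and_eq_true, beq_iff_eq] at h
    exact cone N hr hs P c h.1 fun k hk => sub_of_land h.2 k hk
  | cons a s ih =>
    intro P c h
    obtain ⟨p, q⟩ := a
    simp only [chk, Bool.and_eq_true, beq_iff_eq, decide_eq_true_eq] at h
    obtain ⟨⟨⟨⟨hp, hq⟩, hpq⟩, hd⟩, hrest⟩ := h
    refine collapse N hr hs P (P ^^^ 2 ^ (p : ℕ)) p q hpq hp hq (fun l hl hpl => ?_) (fun l => ?_)
      (ih _ _ hrest)
    · apply sub_of_land hd l
      rw [Nat.testBit_land, hpl, hl]; rfl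
    · rw [Nat.testBit_xor, Nat.testBit_two_pow]
      by_cases hlp : l = p
      · subst hlp; simp [hp]
      · have : (p : ℕ) ≠ (l : ℕ) := fun h => hlp (Fin.ext h.symm)
        simp [hlp, this]

end Q151.FP
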